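import Pool.Agent.Helper34.Dep.Defs

/-!
# Removing univariate factors from a bivariate polynomial
-/

set_option autoImplicit false

namespace Pool.Agent.Helper3.Dep

open Polynomial Pool.Agent.Helper34.Dep

open scoped Polynomial.Bivariate

variable {k : Type} [Field k]

theorem coeff_swap (P : k[X][Y]) (i j : ℕ) :
    ((Bivariate.swap P).coeff i).coeff j = (P.coeff j).coeff i := by
  induction P using Polynomial.induction_on' with
  | add p q hp hq => simp only [map_add, coeff_add, hp, hq]
  | monomial n a =>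
    induction a using Polynomial.induction_on' with
    | add p q hp hq => simp only [map_add, coeff_add, hp, hq]
    | monomial m r =>
      rw [Bivariate.swap_monomial_monomial]
      simp only [coeff_monomial]
      by_cases h1 : m = i <;> by_cases h2 : n = j <;> simp [h1, h2, coeff_monomial]

theorem biDeg_iff (P : k[X][Y]) (m : ℕ) :
    BiDeg P m ↔ ∀ i j, (P.coeff i).coeff j ≠ 0 → i ≤ m ∧ j ≤ m := by
  constructor
  · rintro ⟨h1, h2⟩ i j hij
    refine ⟨?_, ?_⟩
    · refine le_trans (le_natDegree_of_ne_zero ?_) h1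
      rintro h
      rw [h] at hij
      simp at hij
    · exact le_trans (le_natDegree_of_ne_zero hij) (h2 i)
  · intro h
    refine ⟨?_, ?_⟩
    · rw [natDegree_le_iff_coeff_eq_zero]
      intro N hN
      ext j
      by_contra hne
      exact absurd (h N j (by simpa using hne)).1 (by omega)
    · intro i
      rw [natDegree_le_iff_coeff_eq_zero]
      intro N hN
      by_contra hne
      exact absurd (h i N hne).2 (by omega)

theorem biDeg_swap (P : k[X][Y]) (m : ℕ) (h : BiDeg P m) : BiDeg (Bivariate.swap P) m := by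
  rw [biDeg_iff] at h ⊢
  intro i j hij
  rw [coeff_swap] at hij
  exact (h j i hij).symm

theorem map_ne_zero_of_isPrimitive (P : k[X][Y]) (hP : P.IsPrimitive) (c : k) :
    P.map (evalRingHom c) ≠ 0 := by
  intro h
  have h1 : C (X - C c) ∣ P := by
    rw [C_dvd_iff_dvd_coeff]
    intro i
    rw [dvd_iff_isRoot]
    have := congrArg (fun q => q.coeff i) h
    simpa [IsRoot] using this
  exact not_isUnit_X_sub_C c (hP _ h1)

theorem biDeg_of_C_mul (c : k[X]) (P : k[X][Y]) (m : ℕ) (hc : c ≠ 0) (h : BiDeg (C c * P) m) :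
    BiDeg P m := by
  refine ⟨?_, ?_⟩
  · have h1 := h.1
    rwa [natDegree_C_mul hc] at h1
  · intro i
    have h1 := h.2 i
    rw [coeff_C_mul] at h1
    by_cases h0 : P.coeff i = 0
    · simp [h0]
    · rw [natDegree_mul hc h0] at h1
      omega

/-- every non-zero bivariate polynomial is a polynomial in `X` times a primitive one -/
theorem strip_one (Q : k[X][Y]) (hQ : Q ≠ 0) (m : ℕ) (hm : BiDeg Q m) :
    ∃ (c : k[X]) (P : k[X][Y]), Q = C c * P ∧ c ≠ 0 ∧ P.IsPrimitive ∧ BiDeg P m ∧
      c.natDegree ≤ m := by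
  classical
  let _ : NormalizedGCDMonoid k[X] := UniqueFactorizationMonoid.toNormalizedGCDMonoid k[X]
  have h1 := eq_C_content_mul_primPart Q
  have hc : Q.content ≠ 0 := by
    rw [Ne, content_eq_zero_iff]
    exact hQ
  refine ⟨Q.content, Q.primPart, h1, hc, isPrimitive_primPart Q, ?_, ?_⟩
  · apply biDeg_of_C_mul Q.content _ m hc
    rw [← h1]
    exact hm
  · have h2 : Q.content ∣ Q.leadingCoeff := content_dvd_coeff _
    have h3 : Q.leadingCoeff ≠ 0 := leadingCoeff_ne_zero.2 hQ
    exact le_trans (natDegree_le_of_dvd h2 h3) (hm.2 _)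

theorem evalEval_C_mul (a b : k) (c : k[X]) (P : k[X][Y]) :
    (C c * P).evalEval a b = c.eval a * P.evalEval a b := by
  simp [evalEval]

theorem evalEval_map_C (a b : k) (c : k[X]) :
    (c.map C : k[X][Y]).evalEval a b = c.eval b := by
  rw [evalEval, eval_map, eval₂_at_apply, eval_C]

theorem eval_C_swap (a : k) (R : k[X][Y]) :
    (Bivariate.swap R).eval (C a) = R.map (evalRingHom a) := by
  induction R using Polynomial.induction_on' with
  | add p q hp hq => simp only [map_add, eval_add, Polynomial.map_add, hp, hq]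
  | monomial n c =>
    induction c using Polynomial.induction_on' with
    | add p q hp hq => simp only [map_add, eval_add, Polynomial.map_add, hp, hq]
    | monomial m r =>
      rw [Bivariate.swap_monomial_monomial, eval_monomial, map_monomial]
      rw [← C_pow, mul_comm, ← smul_eq_C_mul, smul_monomial]
      simp [mul_comm]

theorem strip {k : Type} [Field k] [IsAlgClosed k] (Q : k[X][Y]) (hQ : Q ≠ 0) (m : ℕ)
    (hm : BiDeg Q m) :
    ∃ Q' : k[X][Y], BiDeg Q' m ∧ (∀ c : k, Q'.map (evalRingHom c) ≠ 0) ∧
      (∀ c : k, Q'.eval (C c) ≠ 0) ∧ ∃ A B : Finset k, A.card ≤ m ∧ B.card ≤ m ∧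
        ∀ a b : k, Q.evalEval a b = 0 → a ∉ A → b ∉ B → Q'.evalEval a b = 0 := by
  classical
  obtain ⟨c, P, hQP, hc0, hPp, hPm, hcm⟩ := strip_one Q hQ m hm
  have hP0 : P ≠ 0 := hPp.ne_zero
  have hsP0 : Bivariate.swap P ≠ 0 := by
    intro h
    apply hP0
    have := congrArg Bivariate.swap h
    rwa [Bivariate.swap_swap_apply, map_zero] at this
  obtain ⟨d, R, hPR, hd0, hRp, hRm, hdm⟩ := strip_one (Bivariate.swap P) hsP0 m
    (biDeg_swap P m hPm)
  have hP2 : P = d.map C * Bivariate.swap R := by
    have := congrArg Bivariate.swap hPR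
    rwa [Bivariate.swap_swap_apply, map_mul, Bivariate.swap_C] at this
  refine ⟨Bivariate.swap R, biDeg_swap R m hRm, ?_, ?_, c.roots.toFinset, d.roots.toFinset,
    ?_, ?_, ?_⟩
  · intro a ha
    apply map_ne_zero_of_isPrimitive P hPp a
    rw [hP2, Polynomial.map_mul, ha, mul_zero]
  · intro a ha
    apply map_ne_zero_of_isPrimitive R hRp a
    rw [← eval_C_swap, ha]
  · exact le_trans (le_trans (Multiset.toFinset_card_le _) (card_roots' _)) hcm
  · exact le_trans (le_trans (Multiset.toFinset_card_le _) (card_roots' _)) hdm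
  · intro a b hab ha hb
    rw [hQP, evalEval_C_mul, hP2, evalEval_mul, evalEval_map_C] at hab
    rcases mul_eq_zero.1 hab with h | h
    · exact absurd (by simpa [hc0] using h) ha
    · rcases mul_eq_zero.1 h with h | h
      · exact absurd (by simpa [hd0] using h) hb
      · exact h

end Pool.Agent.Helper3.Dep
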