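import Pool.Agent.Helper16.FF1
import Pool.Agent.Helper3.Dep.Strip

/-!
# The minimal bivariate polynomial of an algebraic element over `k(T)`
-/

set_option autoImplicit false
set_option linter.style.haveILetI false

namespace Pool.Agent.Helper3.Dep

open Polynomial Pool.Agent.Helper34.Dep Pool.Agent.Helper16 IntermediateField

open scoped Polynomial.Bivariate

variable {k M : Type} [Field k] [Field M] [Algebra k M]

theorem aevalAeval_eq_eval₂ {K : Type} [Field K] [Algebra k K] (x y : K) (R : k[X][Y]) :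
    R.aevalAeval x y = eval₂ (aeval x : k[X] →ₐ[k] K).toRingHom y R := by
  induction R using Polynomial.induction_on' with
  | add p q hp hq => rw [map_add, hp, hq, eval₂_add]
  | monomial n a => simp

theorem exists_primitive_multiple (T : M) (hT : Transcendental k T) (p : k⟮T⟯[X]) (hp : p ≠ 0) :
    ∃ (R : k[X][Y]) (c : k⟮T⟯), c ≠ 0 ∧ R.IsPrimitive ∧
      R.map (aeval (AdjoinSimple.gen k T) : k[X] →ₐ[k] k⟮T⟯).toRingHom = C c * p ∧
      R.natDegree = p.natDegree := by
  classical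
  let _ : NormalizedGCDMonoid k[X] := UniqueFactorizationMonoid.toNormalizedGCDMonoid k[X]
  letI := algXF k T
  haveI := isFractionRing_algXF T hT
  have hθ : (aeval (AdjoinSimple.gen k T) : k[X] →ₐ[k] k⟮T⟯).toRingHom = algebraMap k[X] k⟮T⟯ := rfl
  have hinj : Function.Injective (algebraMap k[X] k⟮T⟯) := IsFractionRing.injective _ _
  rw [hθ]
  obtain ⟨b, hb, hmap⟩ := IsLocalization.integerNormalization_spec (nonZeroDivisors k[X]) p
  set q := IsLocalization.integerNormalization (nonZeroDivisors k[X]) p with hq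
  have hb0 : b ≠ 0 := nonZeroDivisors.ne_zero hb
  have hb1 : algebraMap k[X] k⟮T⟯ b ≠ 0 := by
    rwa [Ne, map_eq_zero_iff _ hinj]
  have hmap' : q.map (algebraMap k[X] k⟮T⟯) = C (algebraMap k[X] k⟮T⟯ b) * p := by
    rw [hmap, Algebra.smul_def]
    rfl
  have hq0 : q ≠ 0 := by
    intro h
    rw [h, Polynomial.map_zero] at hmap'
    exact mul_ne_zero (by rwa [Ne, C_eq_zero]) hp hmap'.symm
  have hc0 : q.content ≠ 0 := by
    rw [Ne, content_eq_zero_iff]
    exact hq0
  have hc1 : algebraMap k[X] k⟮T⟯ q.content ≠ 0 := by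
    rwa [Ne, map_eq_zero_iff _ hinj]
  refine ⟨q.primPart, algebraMap k[X] k⟮T⟯ b / algebraMap k[X] k⟮T⟯ q.content,
    div_ne_zero hb1 hc1, isPrimitive_primPart q, ?_, ?_⟩
  · have h1 := eq_C_content_mul_primPart q
    have h2 := congrArg (Polynomial.map (algebraMap k[X] k⟮T⟯)) h1
    rw [Polynomial.map_mul, map_C, hmap'] at h2
    have h3 : (C (algebraMap k[X] k⟮T⟯ q.content) : k⟮T⟯[X]) ≠ 0 := by rwa [Ne, C_eq_zero]
    apply mul_left_cancel₀ h3
    rw [← h2, ← mul_assoc, ← C_mul, mul_div_cancel₀ _ hc1]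
  · rw [natDegree_primPart, ← natDegree_map_eq_of_injective hinj q, hmap', natDegree_C_mul hb1]

/-- minimal bivariate polynomial of `u` over `k(T)` -/
theorem exists_biv [IsAlgClosed k] (T u : M) (hT : Transcendental k T)
    (hu : IsAlgebraic k⟮T⟯ u) :
    ∃ R : k[X][Y], R.aevalAeval T u = 0 ∧ (∀ c : k, R.map (evalRingHom c) ≠ 0) ∧
      R.natDegree ≤ Module.finrank k⟮T⟯ k⟮T⟯⟮u⟯ ∧
      ∀ (K : Type) [Field K] [Algebra k K] [IsAlgClosed K] (T' u' : K), Transcendental k T' →
        Algebra.IsAlgebraic k⟮T⟯ M → R.aevalAeval T' u' = 0 →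
        ∃ ψ : M →ₐ[k] K, ψ T = T' ∧ ψ u = u' := by
  have hui : IsIntegral k⟮T⟯ u := hu.isIntegral
  have hp0 : minpoly k⟮T⟯ u ≠ 0 := minpoly.ne_zero hui
  obtain ⟨R, c, hc, hR, hmap, hdeg⟩ := exists_primitive_multiple T hT (minpoly k⟮T⟯ u) hp0
  refine ⟨R, ?_, map_ne_zero_of_isPrimitive R hR, ?_, ?_⟩
  · rw [aevalAeval_eq_eval₂]
    have h1 : (aeval T : k[X] →ₐ[k] M).toRingHom = (algebraMap k⟮T⟯ M).comp
        (aeval (AdjoinSimple.gen k T) : k[X] →ₐ[k] k⟮T⟯).toRingHom := by
      ext a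
      · simp
      · simp
    rw [h1, ← eval₂_map, hmap, eval₂_mul, ← aeval_def, ← aeval_def, minpoly.aeval, mul_zero]
  · rw [hdeg, adjoin.finrank hui]
  · intro K _ _ _ T' u' hT' halg h0
    letI := algXF k T
    haveI := isFractionRing_algXF T hT
    have hinj : Function.Injective ((aeval T' : k[X] →ₐ[k] K) : k[X] →+* K) :=
      transcendental_iff_injective.1 hT'
    let j : k⟮T⟯ →+* K := IsFractionRing.lift hinj
    have hj : ∀ a : k[X], j (aeval (AdjoinSimple.gen k T) a) = aeval T' a := fun a =>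
      IsFractionRing.lift_algebraMap hinj a
    have hjk : ∀ a : k, j (algebraMap k k⟮T⟯ a) = algebraMap k K a := by
      intro a
      have := hj (C a)
      simpa using this
    have hjT : j (AdjoinSimple.gen k T) = T' := by
      have := hj X
      simpa using this
    letI : Algebra k⟮T⟯ K := j.toAlgebra
    have hja : ∀ a, algebraMap k⟮T⟯ K a = j a := fun a => rfl
    haveI : IsScalarTower k k⟮T⟯ K := IsScalarTower.of_algebraMap_eq fun a => by
      rw [hja, hjk]
    have h2 : (aeval T' : k[X] →ₐ[k] K).toRingHom = (algebraMap k⟮T⟯ K).comp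
        (aeval (AdjoinSimple.gen k T) : k[X] →ₐ[k] k⟮T⟯).toRingHom := by
      ext a
      · change aeval T' (C a) = j (aeval (AdjoinSimple.gen k T) (C a))
        rw [hj]
      · change aeval T' X = j (aeval (AdjoinSimple.gen k T) X)
        rw [hj]
    rw [aevalAeval_eq_eval₂, h2, ← eval₂_map, hmap, eval₂_mul, ← aeval_def, ← aeval_def, aeval_C,
      mul_eq_zero, map_eq_zero_iff _ (algebraMap k⟮T⟯ K).injective] at h0
    have h3 : aeval u' (minpoly k⟮T⟯ u) = 0 := h0.resolve_left hc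
    obtain ⟨φ, hφ⟩ := exists_algHom_of_splits_of_aeval (F := k⟮T⟯) (E := M) (K := K)
      (fun s => ⟨(halg.isAlgebraic s).isIntegral, IsAlgClosed.splits _⟩) h3
    refine ⟨φ.restrictScalars k, ?_, hφ⟩
    have h4 : φ (algebraMap k⟮T⟯ M (AdjoinSimple.gen k T)) = T' := by
      rw [φ.commutes, hja, hjT]
    simpa using h4

end Pool.Agent.Helper3.Dep
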